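import Pool.Agent.R323.SH.K

/-!
# MP_a31e79_nt: integral points with abscissae in a given small set

For all `B` and `ε > 0` there are `N` and `δ > 0` such that, for every set `V` of at most `Y ^ δ`
integers in `[-Y ^ B, Y ^ B]`, all but `O(Y ^ ε)` of the equations `y² = x³ + a x + b` with
`|a|, |b| ≤ Y` have at most `N` integral points with `x ∈ V`, whatever the rank is.
-/

set_option autoImplicit false

namespace Pool.Agent.Results.MP_a31e79_nt.FewEquationsSmallSets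

theorem result (B : ℕ) (ε : ℝ) (hε : 0 < ε) : ∃ (N : ℕ) (δ C : ℝ), 0 < δ ∧
    ∀ Y : ℕ, 1 ≤ Y → ∀ V : Finset ℤ, (V.card : ℝ) ≤ (Y : ℝ) ^ δ → (∀ x ∈ V, |x| ≤ (Y : ℤ) ^ B) →
    ∀ S : Finset (ℤ × ℤ), (∀ t ∈ S, |t.1| ≤ (Y : ℤ) ∧ |t.2| ≤ (Y : ℤ) ∧
      4 * t.1 ^ 3 + 27 * t.2 ^ 2 ≠ 0 ∧ ∃ P : Finset (ℤ × ℤ), N < P.card ∧ ∀ q ∈ P,
        q.1 ∈ V ∧ q.2 ^ 2 = q.1 ^ 3 + t.1 * q.1 + t.2) →
      (S.card : ℝ) ≤ C * (Y : ℝ) ^ ε :=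
  Pool.Agent.R323.SH.integral B ε hε

end Pool.Agent.Results.MP_a31e79_nt.FewEquationsSmallSets
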